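import Mathlib
import Pool.Agent.Q176.SetTietze

namespace Pool.Agent.Results.MP_65e89e_gt.NotSetSelfTietze

open Set Filter Topology Q176.SetTietze

/-- The type `ℝ` with the discrete topology. -/
def D : Type := ℝ

instance : TopologicalSpace D := ⊥
instance : DiscreteTopology D := ⟨rfl⟩

instance : Uncountable D := inferInstanceAs (Uncountable ℝ)

/-- The product of the one-point compactifications of an uncountable and of a countable discrete
space. -/
abbrev X : Type := OnePoint D × OnePoint ℕ

lemma nhds_infty_prod (U : Set X) (hU : IsOpen U) (n : ℕ) (h : (OnePoint.infty, (n : OnePoint ℕ)) ∈ U) :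
    {d : D | ((d : OnePoint D), (n : OnePoint ℕ)) ∉ U}.Finite := by
  have hV : IsOpen {x : OnePoint D | (x, (n : OnePoint ℕ)) ∈ U} :=
    hU.preimage (by fun_prop)
  rw [OnePoint.isOpen_iff_of_mem (by exact h)] at hV
  have := hV.2
  rw [isCompact_iff_finite] at this
  exact this

lemma not_cn : ¬ CompletelyNormalSpace X := by
  intro hX
  let S : Set X := range (fun n : ℕ => ((OnePoint.infty : OnePoint D), (n : OnePoint ℕ)))
  let T : Set X := range (fun d : D => ((d : OnePoint D), (OnePoint.infty : OnePoint ℕ)))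
  have hS : closure S ⊆ {OnePoint.infty} ×ˢ univ := by
    apply closure_minimal
    · rintro _ ⟨n, rfl⟩
      exact ⟨rfl, mem_univ _⟩
    · exact isClosed_singleton.prod isClosed_univ
  have hT : closure T ⊆ univ ×ˢ {OnePoint.infty} := by
    apply closure_minimal
    · rintro _ ⟨n, rfl⟩
      exact ⟨mem_univ _, rfl⟩
    · exact isClosed_univ.prod isClosed_singleton
  have hST : Disjoint (closure S) T := by
    rw [Set.disjoint_left]
    rintro _ hx ⟨d, rfl⟩
    exact OnePoint.coe_ne_infty d (hS hx).1
  have hST' : Disjoint S (closure T) := by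
    rw [Set.disjoint_left]
    rintro _ ⟨n, rfl⟩ hx
    exact OnePoint.coe_ne_infty n (hT hx).2
  have hd := hX.completely_normal hST hST'
  rw [separatedNhds_iff_disjoint.symm] at hd
  obtain ⟨U, V, hU, hV, hSU, hTV, hUV⟩ := hd
  have hfin : ∀ n : ℕ, {d : D | ((d : OnePoint D), (n : OnePoint ℕ)) ∉ U}.Finite := fun n =>
    nhds_infty_prod U hU n (hSU ⟨n, rfl⟩)
  have hc : (⋃ n : ℕ, {d : D | ((d : OnePoint D), (n : OnePoint ℕ)) ∉ U}).Countable :=
    countable_iUnion fun n => (hfin n).countable
  obtain ⟨d, hd⟩ : ∃ d : D, d ∉ ⋃ n : ℕ, {d : D | ((d : OnePoint D), (n : OnePoint ℕ)) ∉ U} := by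
    by_contra hcon
    push Not at hcon
    exact not_countable_univ (hc.mono (fun d _ => hcon d))
  simp only [mem_iUnion, mem_ofPred_eq, not_exists, not_not] at hd
  have hV' : IsOpen {x : OnePoint ℕ | ((d : OnePoint D), x) ∈ V} := hV.preimage (by fun_prop)
  rw [OnePoint.isOpen_iff_of_mem (by exact hTV ⟨d, rfl⟩)] at hV'
  have h2 := hV'.2
  rw [isCompact_iff_finite] at h2
  obtain ⟨n, hn⟩ := h2.infinite_compl.nonempty
  have hn' : ((d : OnePoint D), (n : OnePoint ℕ)) ∈ V := by
    by_contra hc
    exact hn hc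
  exact disjoint_left.mp hUV (hd n) hn'

/-- Every Hausdorff set-self-Tietze space is completely (that is, hereditarily) normal, and so
not every compact Hausdorff space is set-self-Tietze. -/
theorem result.{u} :
    (∀ (Y : Type u) [TopologicalSpace Y] [T2Space Y], SetSelfTietze Y → CompletelyNormalSpace Y) ∧
    ∃ (Y : Type) (_ : TopologicalSpace Y), CompactSpace Y ∧ T2Space Y ∧ ¬ SetSelfTietze Y :=
  ⟨fun Y _ _ h => completelyNormal Y h,
    X, inferInstance, inferInstance, inferInstance, fun h => not_cn (completelyNormal X h)⟩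

end Pool.Agent.Results.MP_65e89e_gt.NotSetSelfTietze
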